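import Pool.Agent.H67.CT.Main

/-!
# Coregular points of the geometries pg(q^2+1, q+1, 1)

Let `q ≥ 2` be not a prime power such that every group of order `q` has a nontrivial normal Sylow subgroup (or such that
another arithmetic condition holds). Then no geometry pg`(q^2+1, q+1, 1)` (a generalized quadrangle of order `(q, q^2)`)
has a coregular point, that is, a point all of whose lines are regular.
-/

set_option autoImplicit false

namespace Pool.Agent.Results.MP_718a21_co.CoregularPoints

/-- The axioms of a geometry pg`(r, k, t)`, `I p l` meaning that the point `p` is on the line `l`. -/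
structure IsPartialGeometry {P L : Type*} (I : P → L → Prop) (r k t : ℕ) : Prop where
  /-- every point lies on exactly `r` lines -/
  lines_through : ∀ p, {l | I p l}.ncard = r
  /-- every line contains exactly `k` points -/
  points_on : ∀ l, {p | I p l}.ncard = k
  /-- two distinct points lie on at most one common line -/
  one_line : ∀ p p' l l', p ≠ p' → I p l → I p' l → I p l' → I p' l' → l = l'
  /-- if `p` is not on `l`, exactly `t` lines through `p` meet `l` -/
  meeting : ∀ p l, ¬ I p l → {m | I p m ∧ ∃ u, I u m ∧ I u l}.ncard = t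

/-- The lines `k` and `l` meet (or are equal): some point is on both. -/
def Meet {P L : Type*} (I : P → L → Prop) (k l : L) : Prop := ∃ p, I p k ∧ I p l

/-- The line `l` is regular: for every line `m` disjoint from `l` there are exactly `q + 1` lines which meet every line
that meets both `l` and `m`. -/
def RegularLine {P L : Type*} (I : P → L → Prop) (q : ℕ) (l : L) : Prop :=
  ∀ m, ¬ Meet I l m → {n | ∀ k, Meet I k l → Meet I k m → Meet I n k}.ncard = q + 1

/-- The point `x` is coregular: every line through `x` is regular. -/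
def Coregular {P L : Type*} (I : P → L → Prop) (q : ℕ) (x : P) : Prop :=
  ∀ l, I x l → RegularLine I q l

open Pool.H63.GQ in
/-- the working form of the axioms -/
theorem toQ {P L : Type*} [Fintype P] [Fintype L] {I : P → L → Prop} {q : ℕ}
    (hI : IsPartialGeometry I (q ^ 2 + 1) (q + 1) 1) : Q I q := by
  classical
  refine ⟨?_, ?_, hI.one_line, ?_, ?_⟩
  · intro p
    rw [← hI.lines_through p, Set.ncard_eq_toFinset_card']
    congr 1
    ext l
    simp
  · intro l
    rw [← hI.points_on l, Set.ncard_eq_toFinset_card']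
    congr 1
    ext p
    simp
  · intro p l hp
    have h1 := hI.meeting p l hp
    rw [Set.ncard_eq_one] at h1
    obtain ⟨m, hm⟩ := h1
    have h2 : m ∈ {m | I p m ∧ ∃ u, I u m ∧ I u l} := by rw [hm]; rfl
    obtain ⟨h3, u, h4, h5⟩ := h2
    exact ⟨m, u, h3, h4, h5⟩
  · intro p l hp m m' u u' h1 h2 h3 h4 h5 h6
    have h7 := hI.meeting p l hp
    rw [Set.ncard_eq_one] at h7
    obtain ⟨a, ha⟩ := h7
    have e1 : m ∈ {m | I p m ∧ ∃ u, I u m ∧ I u l} := ⟨h1, u, h3, h4⟩
    have e2 : m' ∈ {m | I p m ∧ ∃ u, I u m ∧ I u l} := ⟨h2, u', h5, h6⟩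
    rw [ha] at e1 e2
    exact (Set.mem_singleton_iff.1 e1).trans (Set.mem_singleton_iff.1 e2).symm

/-- Every group of order `q` has a nontrivial normal Sylow subgroup. (By Sylow's theorem this holds if
`q = p ^ α * r`, `p` a prime not dividing `r`, `1 ≤ α`, and no divisor `d > 1` of `r` is congruent to `1` modulo `p`.) -/
def NormalSylow (q : ℕ) : Prop :=
  ∀ (B : Type) [Group B] [Finite B], Nat.card B = q →
    ∃ p, p.Prime ∧ p ∣ q ∧ ∃ P : Sylow p B, (P : Subgroup B).Normal

/-- `q = p ^ α * r`, `p` a prime not dividing `r ≥ 2`, `1 ≤ α`, and `p ^ α = 2` or no prime divisor of `r` divides one of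
the numbers `p ^ i - 1`, `1 ≤ i ≤ 2 α`. -/
def NormalComplement (q : ℕ) : Prop :=
  ∃ p α r, p.Prime ∧ 1 ≤ α ∧ ¬ p ∣ r ∧ 2 ≤ r ∧ q = p ^ α * r ∧
    ((p = 2 ∧ α = 1) ∨ ∀ s, s.Prime → s ∣ r → ∀ i, 1 ≤ i → i ≤ 2 * α → ¬ s ∣ p ^ i - 1)

/-- Main theorem. Let `q ≥ 2` be not a prime power and satisfy `NormalSylow q` or `NormalComplement q`. No geometry
pg`(q^2+1, q+1, 1)` has a coregular point. -/
theorem result {P L : Type*} [Finite P] [Finite L] (I : P → L → Prop) (q : ℕ) (hq : 2 ≤ q)
    (hpp : ¬ IsPrimePow q) (hqq : NormalSylow q ∨ NormalComplement q)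
    (hI : IsPartialGeometry I (q ^ 2 + 1) (q + 1) 1) (x : P) : ¬ Coregular I q x := by
  classical
  have := Fintype.ofFinite P
  have := Fintype.ofFinite L
  rcases hqq with h | ⟨p, α, r, hp, hα, hr, hr2, hq', hg⟩
  · exact Pool.H67.CT.gq_sylow (toQ hI) hq hpp h x
  · exact Pool.H67.CT.gq_good (toQ hI) p α r hp hα hr hr2 hq' hg x

end Pool.Agent.Results.MP_718a21_co.CoregularPoints
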