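import Pool.Agent.H63.GQ.Main
import Pool.Agent.H63.GQ.Pt

/-!
# Elation groups of the geometries pg(q^2+1, q+1, 1)

Let `q ≥ 2`. If a geometry pg`(q^2+1, q+1, 1)` (a generalized quadrangle of order
`(q, q^2)`) has a line `l0` and a group `G` of automorphisms which fixes every point of `l0` and acts regularly
on the lines disjoint from `l0` (that is, the dual quadrangle is an elation quadrangle of order `(q^2, q)`), then
exactly `q` elements of `G` fix every line that meets `l0`, and `q` is a prime power.
-/

set_option autoImplicit false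

namespace Pool.Agent.Results.MP_718a21_co.ElationGroups

/-- The axioms of a geometry pg`(r, k, t)`, `I p l` meaning that the point `p` is on the line `l`. -/
structure IsPartialGeometry {P L : Type*} (I : P → L → Prop) (r k t : ℕ) : Prop where
  /-- every point lies on exactly `r` lines -/
  lines_through : ∀ p, {l | I p l}.ncard = r
  /-- every line contains exactly `k` points -/
  points_on : ∀ l, {p | I p l}.ncard = k
  /-- two distinct points lie on at most one common line -/
  one_line : ∀ p p' l l', p ≠ p' → I p l → I p' l → I p l' → I p' l' → l = l'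
  /-- if `p` is not on `l`, exactly `t` lines through `p` meet `l` -/
  meeting : ∀ p l, ¬ I p l → {m | I p m ∧ ∃ u, I u m ∧ I u l}.ncard = t

/-- `G` acts by automorphisms of the geometry, fixes every point of `l0`, and no element other than the identity
fixes a line disjoint from `l0`. -/
structure ElationsAboutLine {P L : Type*} (I : P → L → Prop) (l0 : L) (G : Type*) [Group G]
    [MulAction G P] [MulAction G L] : Prop where
  auto : ∀ (g : G) p l, I (g • p) (g • l) ↔ I p l
  fix : ∀ (g : G) p, I p l0 → g • p = p
  free : ∀ (g : G) l, (∀ p, I p l → ¬ I p l0) → g • l = l → g = 1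

/-- `G` acts by automorphisms of the geometry, fixes every line through `x`, and no element other than the
identity fixes a point not collinear with `x`. -/
structure ElationsAboutPoint {P L : Type*} (I : P → L → Prop) (x : P) (G : Type*) [Group G]
    [MulAction G P] [MulAction G L] : Prop where
  auto : ∀ (g : G) p l, I (g • p) (g • l) ↔ I p l
  fix : ∀ (g : G) l, I x l → g • l = l
  free : ∀ (g : G) y, (∀ l, I y l → ¬ I x l) → g • y = y → g = 1

/-- the elements of `G` fixing every line that meets `l0` (the symmetries about `l0`) -/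
def symmetries {P L : Type*} (I : P → L → Prop) (l0 : L) (G : Type*) [Group G] [MulAction G L] : Set G :=
  {g | ∀ l, (∃ p, I p l0 ∧ I p l) → g • l = l}

open Pool.H63.GQ in
/-- the working form of the axioms -/
theorem toQ {P L : Type*} [Fintype P] [Fintype L] {I : P → L → Prop} {q : ℕ}
    (hI : IsPartialGeometry I (q ^ 2 + 1) (q + 1) 1) : Q I q := by
  classical
  refine ⟨?_, ?_, hI.one_line, ?_, ?_⟩
  · intro p
    rw [← hI.lines_through p, Set.ncard_eq_toFinset_card']
    congr 1
    ext l
    simp
  · intro l
    rw [← hI.points_on l, Set.ncard_eq_toFinset_card']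
    congr 1
    ext p
    simp
  · intro p l hp
    have h1 := hI.meeting p l hp
    rw [Set.ncard_eq_one] at h1
    obtain ⟨m, hm⟩ := h1
    have h2 : m ∈ {m | I p m ∧ ∃ u, I u m ∧ I u l} := by rw [hm]; rfl
    obtain ⟨h3, u, h4, h5⟩ := h2
    exact ⟨m, u, h3, h4, h5⟩
  · intro p l hp m m' u u' h1 h2 h3 h4 h5 h6
    have h7 := hI.meeting p l hp
    rw [Set.ncard_eq_one] at h7
    obtain ⟨a, ha⟩ := h7
    have e1 : m ∈ {m | I p m ∧ ∃ u, I u m ∧ I u l} := ⟨h1, u, h3, h4⟩
    have e2 : m' ∈ {m | I p m ∧ ∃ u, I u m ∧ I u l} := ⟨h2, u', h5, h6⟩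
    rw [ha] at e1 e2
    exact (Set.mem_singleton_iff.1 e1).trans (Set.mem_singleton_iff.1 e2).symm

open Pool.H63.GQ in
theorem toAct {P L : Type*} [Fintype P] [Fintype L] {I : P → L → Prop} {q : ℕ} (hq : 2 ≤ q) (h : Q I q)
    {l0 : L} {G : Type*} [Group G] [MulAction G P] [MulAction G L] (hG : ElationsAboutLine I l0 G) :
    Act I l0 G := by
  refine ⟨hG.auto, ?_, hG.fix⟩
  intro g
  obtain ⟨i, j, hi, hj, hij⟩ := Act.two_pts h (by omega) l0
  have h1 : I i (g • l0) := by
    rw [← hG.fix g i hi]
    exact (hG.auto g i l0).2 hi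
  have h2 : I j (g • l0) := by
    rw [← hG.fix g j hj]
    exact (hG.auto g j l0).2 hj
  exact h.un i j (g • l0) l0 hij h1 h2 hi hj

open Pool.H63.GQ in
theorem toActP {P L : Type*} [Fintype P] [Fintype L] {I : P → L → Prop} {q : ℕ} (hq : 2 ≤ q) (h : Q I q)
    {x : P} {G : Type*} [Group G] [MulAction G P] [MulAction G L] (hG : ElationsAboutPoint I x G) :
    ActP I x G := by
  classical
  refine ⟨hG.auto, ?_, hG.fix, ?_⟩
  · intro g
    have h1 : 1 < (Finset.univ.filter (fun l => I x l)).card := by
      rw [h.ln]
      have : 0 < q ^ 2 := by positivity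
      omega
    obtain ⟨l, hl, l', hl', hne⟩ := Finset.one_lt_card.1 h1
    rw [Finset.mem_filter] at hl hl'
    have h2 : I (g • x) l := by
      have := (hG.auto g x l).2 hl.2
      rwa [hG.fix g l hl.2] at this
    have h3 : I (g • x) l' := by
      have := (hG.auto g x l').2 hl'.2
      rwa [hG.fix g l' hl'.2] at this
    by_contra hx
    exact hne (h.un (g • x) x l l' hx h2 hl.2 h3 hl'.2)
  · intro g y hy hgy
    apply hG.free g y _ hgy
    intro l h1 h2
    exact hy ⟨l, h2, h1⟩

open Pool.H63.GQ in
/-- Main theorem. Let `q ≥ 2` and let `I` be a geometry pg`(q^2+1, q+1, 1)`.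

(1) If a group of elations about a line `l0` is transitive on the lines disjoint from `l0`, then it contains
exactly `q` symmetries about `l0`, and `q` is a prime power.

(2) If a group `G` of elations about a line `l0` contains `q` symmetries about `l0`, then there is at most one
prime divisor `p` of `q` such that `|G|` is divisible by the fourth power of the `p`-part of `q`.

(3) If `G` is a group of elations about a point, then there is at most one prime divisor `p` of `q` such that
`|G|` is divisible by `p` times the third power of the `p`-part of `q`. -/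
theorem result {P L : Type*} [Finite P] [Finite L] (I : P → L → Prop) (q : ℕ) (hq : 2 ≤ q)
    (hI : IsPartialGeometry I (q ^ 2 + 1) (q + 1) 1)
    (G : Type*) [Group G] [MulAction G P] [MulAction G L] :
    (∀ l0 : L, ElationsAboutLine I l0 G →
      (∀ l l', (∀ p, I p l → ¬ I p l0) → (∀ p, I p l' → ¬ I p l0) → ∃ g : G, g • l = l') →
        (symmetries I l0 G).ncard = q ∧ IsPrimePow q) ∧
    (∀ l0 : L, ElationsAboutLine I l0 G → (symmetries I l0 G).ncard = q →
      ∀ p r : ℕ, p.Prime → r.Prime → p ∣ q → r ∣ q → p ^ (4 * q.factorization p) ∣ Nat.card G →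
        r ^ (4 * q.factorization r) ∣ Nat.card G → p = r) ∧
    (∀ x : P, ElationsAboutPoint I x G →
      ∀ p r : ℕ, p.Prime → r.Prime → p ∣ q → r ∣ q → p ^ (3 * q.factorization p + 1) ∣ Nat.card G →
        r ^ (3 * q.factorization r + 1) ∣ Nat.card G → p = r) := by
  classical
  have := Fintype.ofFinite P
  have := Fintype.ofFinite L
  have h : Q I q := toQ hI
  have hsym : ∀ {l0 : L} (ha : Act I l0 G), (symmetries I l0 G).ncard = Nat.card ha.Sy := by
    intro l0 ha
    rfl
  have hfinL : ∀ {l0 : L}, ElationsAboutLine I l0 G → Finite G := by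
    intro l0 hG
    obtain ⟨i, j, hi, hj, hij⟩ := Act.two_pts h (by omega) l0
    obtain ⟨y, hy⟩ := Act.exX h (by omega) hi
    have ha := toAct hq h hG
    apply Finite.of_injective (fun g : G => g • y)
    intro g g' hgg
    have hgg' : g • y = g' • y := hgg
    have : g'⁻¹ * g = 1 := by
      apply hG.free _ y hy
      rw [mul_smul, hgg', inv_smul_smul]
    exact (inv_mul_eq_one.1 this).symm
  have hsemi : ∀ {l0 : L}, ElationsAboutLine I l0 G → Semi I l0 G := by
    intro l0 hG g l hl hgl
    exact hG.free g l hl hgl
  refine ⟨?_, ?_, ?_⟩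
  · intro l0 hG htr
    have ha := toAct hq h hG
    have := hfinL hG
    have := Fintype.ofFinite G
    have hr : Reg I l0 G := by
      intro l l' hl hl'
      obtain ⟨g, hg⟩ := htr l l' hl hl'
      refine ⟨g, hg, ?_⟩
      intro g' hg'
      have hg2 : g' • l = l' := hg'
      have : g⁻¹ * g' = 1 := by
        apply hG.free _ l hl
        rw [mul_smul, hg2, ← hg, inv_smul_smul]
      exact (inv_mul_eq_one.1 this).symm
    rw [hsym ha]
    exact Act.main_reg h hq ha hr
  · intro l0 hG hc p r hp hr hpq hrq hpG hrG
    have ha := toAct hq h hG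
    have := hfinL hG
    have := Fintype.ofFinite G
    rw [hsym ha] at hc
    by_contra hpr
    exact Act.main h hq ha (hsemi hG) hc hp hr hpr hpq hrq hpG hrG
  · intro x hG p r hp hr hpq hrq hpG hrG
    have ha := toActP hq h hG
    -- there is a point not collinear with x
    obtain ⟨y, hy⟩ : ∃ y, ¬ Col I x y := by
      by_contra hno
      push Not at hno
      have h1 := h.nb x
      rw [Finset.filter_true_of_mem (fun y _ => (hno y).symm), Finset.card_univ] at h1
      obtain ⟨l, hl, _⟩ := h.refl x
      rw [h.card_points l] at h1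
      have : (q + 1) * (q ^ 3 + 1) = 1 + (q ^ 2 + 1) * q + q ^ 4 := by ring
      have hq4 : 0 < q ^ 4 := by positivity
      omega
    have : Finite G := by
      apply Finite.of_injective (fun g : G => g • y)
      intro g g' hgg
      have hgg' : g • y = g' • y := hgg
      have : g'⁻¹ * g = 1 := by
        apply ha.semi _ y hy
        rw [mul_smul, hgg', inv_smul_smul]
      exact (inv_mul_eq_one.1 this).symm
    by_contra hpr
    exact ActP.main h (by omega) ha hp hr hpr hpq hrq hpG hrG

end Pool.Agent.Results.MP_718a21_co.ElationGroups
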